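import Pool.Agent.Helper93.GS.Stmts

set_option autoImplicit false

namespace Pool.Agent.Helper93.GS

theorem gsn_sum (M : ℕ) : ∑ k ∈ Finset.range (13 + M), ((k - 12 : ℕ) : ℝ) * (3 / 4 : ℝ) ^ (k - 1) =
    (3 / 4 : ℝ) ^ 12 * (16 - (4 * M + 16) * (3 / 4 : ℝ) ^ M) := by
  induction M with
  | zero => simp [Finset.sum_range_succ]
  | succ M ih =>
    rw [show 13 + (M + 1) = (13 + M) + 1 by ring, Finset.sum_range_succ, ih]
    have e1 : 13 + M - 12 = M + 1 := by omega
    have e2 : 13 + M - 1 = 12 + M := by omega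
    rw [e1, e2, pow_add (3 / 4 : ℝ) 12 M, pow_succ (3 / 4 : ℝ) M]
    push_cast
    ring

theorem gsn_le (n : ℕ) : ∑ k ∈ Finset.range n, ((k - 12 : ℕ) : ℝ) * (3 / 4 : ℝ) ^ (k - 1) ≤ 2 / 3 := by
  have h1 : ∑ k ∈ Finset.range n, ((k - 12 : ℕ) : ℝ) * (3 / 4 : ℝ) ^ (k - 1) ≤
      ∑ k ∈ Finset.range (13 + n), ((k - 12 : ℕ) : ℝ) * (3 / 4 : ℝ) ^ (k - 1) := by
    apply Finset.sum_le_sum_of_subset_of_nonneg
    · intro k hk
      rw [Finset.mem_range] at hk ⊢
      omega
    · intro k _ _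
      positivity
  refine h1.trans ?_
  rw [gsn_sum]
  have h2 : (0 : ℝ) ≤ (4 * n + 16) * (3 / 4 : ℝ) ^ n := by positivity
  have h3 : (3 / 4 : ℝ) ^ 12 * 16 ≤ 2 / 3 := by norm_num
  have h4 : (0 : ℝ) < (3 / 4 : ℝ) ^ 12 := by positivity
  nlinarith

theorem st_GSN : ST_GSN := by
  intro b hb h
  have key : ∀ n, 4 * b n ≤ 3 * b (n + 1) := by
    intro n
    induction n using Nat.strong_induction_on with
    | _ n ih =>
    have hj : ∀ j, j ≤ n → ((b (n - j) : ℕ) : ℝ) ≤ (3 / 4 : ℝ) ^ j * b n := by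
      intro j
      induction j with
      | zero => intro _; simp
      | succ j ihj =>
        intro hjn
        have h1 := ihj (by omega)
        have h2 := ih (n - (j + 1)) (by omega)
        have e : n - (j + 1) + 1 = n - j := by omega
        rw [e] at h2
        have h3 : (4 : ℝ) * b (n - (j + 1)) ≤ 3 * b (n - j) := by exact_mod_cast h2
        rw [pow_succ]
        nlinarith
    have h1 : ((∑ k ∈ Finset.range (n + 2), (k - 12) * b (n + 1 - k) : ℕ) : ℝ) ≤ 2 / 3 * b n := by
      rw [Nat.cast_sum]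
      have h2 : ∑ k ∈ Finset.range (n + 2), (((k - 12) * b (n + 1 - k) : ℕ) : ℝ) ≤
          ∑ k ∈ Finset.range (n + 2), (((k - 12 : ℕ) : ℝ) * (3 / 4 : ℝ) ^ (k - 1)) * b n := by
        apply Finset.sum_le_sum
        intro k hk
        rw [Finset.mem_range] at hk
        rw [Nat.cast_mul]
        rcases Nat.eq_zero_or_pos k with hk0 | hk0
        · subst hk0
          simp
        · have h3 := hj (k - 1) (by omega)
          have e : n - (k - 1) = n + 1 - k := by omega
          rw [e] at h3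
          rw [mul_assoc]
          exact mul_le_mul_of_nonneg_left h3 (Nat.cast_nonneg _)
      refine h2.trans ?_
      rw [← Finset.sum_mul]
      exact mul_le_mul_of_nonneg_right (gsn_le (n + 2)) (Nat.cast_nonneg _)
    have h2 : (2 : ℝ) * b n ≤ b (n + 1) +
        ((∑ k ∈ Finset.range (n + 2), (k - 12) * b (n + 1 - k) : ℕ) : ℝ) := by
      exact_mod_cast h n
    have h3 : (4 : ℝ) * b n ≤ 3 * b (n + 1) := by linarith
    exact_mod_cast h3
  intro n
  induction n with
  | zero => exact hb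
  | succ n ih =>
    have := key n
    omega

end Pool.Agent.Helper93.GS
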